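import Pool.Agent.R30B.Stmts

set_option autoImplicit false

namespace Pool.Agent.R30B.H49

/-- the data of one step: `h` is driven by `f` and `g`, which have the period `Q` from the time `c` on,
up to the horizon `T` -/
structure Drv (f g h : ℕ → Bool) (Q c T : ℕ) : Prop where
  hf : ∀ t, c ≤ t → t + Q + 1 ≤ T → f (t + Q) = f t
  hg : ∀ t, c ≤ t → t + Q + 1 ≤ T → g (t + Q) = g t
  hr : ∀ t, t + 1 ≤ T → h (t + 1) = Bool.xor (f t) (g t || h t)

variable {f g h : ℕ → Bool} {Q c T : ℕ}

theorem Drv.step (D : Drv f g h Q c T) {t : ℕ} (h1 : c ≤ t) (h2 : t + Q + 1 ≤ T) :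
    Bool.xor (h (t + 1 + Q)) (h (t + 1)) = (!(g t) && Bool.xor (h (t + Q)) (h t)) := by
  have e1 := D.hr (t + Q) h2
  have e2 := D.hr t (by omega)
  rw [D.hf t h1 h2, D.hg t h1 h2] at e1
  have e3 : t + 1 + Q = t + Q + 1 := by omega
  rw [e3, e1, e2]
  cases f t <;> cases g t <;> cases h (t + Q) <;> cases h t <;> rfl

theorem Drv.keep (D : Drv f g h Q c T) {t₀ : ℕ} (h1 : c ≤ t₀) (h2 : h (t₀ + Q) = h t₀) :
    ∀ i, t₀ + i + Q ≤ T → h (t₀ + i + Q) = h (t₀ + i) := by
  intro i
  induction i with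
  | zero => exact fun _ => h2
  | succ i ih =>
    intro h3
    have e1 := D.step (t := t₀ + i) (by omega) (by omega)
    rw [ih (by omega), Bool.xor_self, Bool.and_false] at e1
    have e2 : h (t₀ + i + 1 + Q) = h (t₀ + i + 1) := by
      revert e1
      cases h (t₀ + i + 1 + Q) <;> cases h (t₀ + i + 1) <;> simp
    exact e2

theorem Drv.after (D : Drv f g h Q c T) {t₁ t : ℕ} (h1 : c ≤ t₁) (h2 : g t₁ = true)
    (h3 : t₁ + 1 ≤ t) (h4 : t + Q ≤ T) : h (t + Q) = h t := by
  have e1 := D.step (t := t₁) h1 (by omega)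
  rw [h2, Bool.not_true, Bool.false_and] at e1
  have e2 : h (t₁ + 1 + Q) = h (t₁ + 1) := by
    revert e1
    cases h (t₁ + 1 + Q) <;> cases h (t₁ + 1) <;> simp
  have e3 := D.keep (t₀ := t₁ + 1) (by omega) e2 (t - (t₁ + 1)) (by omega)
  have e4 : t₁ + 1 + (t - (t₁ + 1)) = t := by omega
  rw [e4] at e3
  exact e3

theorem Drv.dbl (D : Drv f g h Q c T) {t : ℕ} (h1 : c + Q ≤ t) (h2 : t + 2 * Q ≤ T) :
    h (t + 2 * Q) = h t := by
  have e0 : t + 2 * Q = t + Q + Q := by omega
  by_cases hex : ∃ s, c ≤ s ∧ s < t ∧ g s = true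
  · obtain ⟨s, hs1, hs2, hs3⟩ := hex
    have e1 := D.after hs1 hs3 (t := t) (by omega) (by omega)
    have e2 := D.after hs1 hs3 (t := t + Q) (by omega) (by omega)
    rw [e0, e2, e1]
  · have hz : ∀ s, c ≤ s → s < t → g s = false := by
      intro s hs1 hs2
      by_contra h3
      exact hex ⟨s, hs1, hs2, by simpa using h3⟩
    have hz2 : ∀ i, i < Q → g (t + i) = false := by
      intro i hi
      have e1 := D.hg (t + i - Q) (by omega) (by omega)
      have e2 : t + i - Q + Q = t + i := by omega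
      rw [e2] at e1
      rw [e1]
      exact hz _ (by omega) (by omega)
    have hc : ∀ i, i ≤ Q → Bool.xor (h (t + i + Q)) (h (t + i)) = Bool.xor (h (t + Q)) (h t) := by
      intro i
      induction i with
      | zero => exact fun _ => rfl
      | succ i ih =>
        intro hi
        have e1 := D.step (t := t + i) (by omega) (by omega)
        rw [hz2 i (by omega), Bool.not_false, Bool.true_and, ih (by omega)] at e1
        exact e1
    have e3 := hc Q le_rfl
    rw [e0]
    revert e3
    cases h (t + Q + Q) <;> cases h (t + Q) <;> cases h t <;> simp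

/-- the first part: the diagonals `j`, `j + 1` have the period `2 ^ j` -/
theorem first (L : ℕ → ℕ → Bool) (H : ℕ → ℕ) (hH1 : ∀ j, H j ≤ H (j + 1))
    (hH2 : ∀ j, H (j + 2) ≤ H j + 1) (h0 : ∀ t ≤ H 0, L 0 t = true)
    (h1 : ∀ t, 1 ≤ t → t ≤ H 1 → L 1 t = true)
    (hr : ∀ j t, t + 1 ≤ H (j + 2) →
      L (j + 2) (t + 1) = Bool.xor (L j t) (L (j + 1) t || L (j + 2) t)) (j : ℕ) :
    (∀ t, 2 ^ j ≤ t → t + 2 ^ j ≤ H j → L j (t + 2 ^ j) = L j t) ∧
    (∀ t, 2 ^ j ≤ t → t + 2 ^ j ≤ H (j + 1) → L (j + 1) (t + 2 ^ j) = L (j + 1) t) := by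
  induction j with
  | zero =>
    refine ⟨?_, ?_⟩
    · intro t _ ht2
      rw [h0 _ ht2, h0 t (by omega)]
    · intro t ht1 ht2
      rw [pow_zero] at ht1 ht2 ⊢
      have ht3 : t + 1 ≤ H 1 := ht2
      exact (h1 (t + 1) (by omega) ht3).trans (h1 t ht1 (by omega)).symm
  | succ j ih =>
    obtain ⟨ih1, ih2⟩ := ih
    have hQ : (2 : ℕ) ^ (j + 1) = 2 * 2 ^ j := by
      rw [pow_succ]
      omega
    have hj1 := hH1 j
    have hj2 := hH2 j
    refine ⟨?_, ?_⟩
    · intro t ht1 ht2
      rw [hQ] at ht1 ht2 ⊢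
      have e1 := ih2 t (by omega) (by omega)
      have e2 := ih2 (t + 2 ^ j) (by omega) (by omega)
      have e3 : t + 2 * 2 ^ j = t + 2 ^ j + 2 ^ j := by omega
      rw [e3, e2, e1]
    · have D : Drv (L j) (L (j + 1)) (L (j + 2)) (2 ^ j) (2 ^ j) (H (j + 2)) := by
        refine ⟨?_, ?_, fun t ht => hr j t ht⟩
        · intro t ht1 ht2
          exact ih1 t ht1 (by omega)
        · intro t ht1 ht2
          exact ih2 t ht1 (by omega)
      intro t ht1 ht2
      rw [hQ] at ht1 ht2 ⊢
      exact D.dbl (by omega) ht2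

theorem edg : EdgStmt := by
  intro J V
  refine ⟨2 ^ J + (V + 2) * 2 ^ J + 1, ?_⟩
  intro L H hH1 hH2 h0 h1 hr τ hτ1 hτ2 hw
  obtain ⟨f1, f2⟩ := first L H hH1 hH2 h0 h1 hr J
  obtain ⟨Q, hQ⟩ : ∃ Q, Q = 2 ^ J := ⟨_, rfl⟩
  have hQ0 : 0 < Q := by rw [hQ]; positivity
  rw [← hQ] at f1 f2 hτ1 ⊢
  have hmono : ∀ i, H J ≤ H (J + i) := by
    intro i
    induction i with
    | zero => exact le_rfl
    | succ i ih => exact ih.trans (hH1 (J + i))
  -- the period `Q` in the window
  have key : ∀ i, i < V → (∀ t, Q + i * Q ≤ t → t + Q ≤ τ → L (J + i) (t + Q) = L (J + i) t) ∧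
      (i + 1 < V → ∀ t, Q + i * Q ≤ t → t + Q ≤ τ → L (J + i + 1) (t + Q) = L (J + i + 1) t) := by
    intro i
    induction i with
    | zero =>
      intro _
      refine ⟨?_, ?_⟩
      · intro t ht1 ht2
        exact f1 t (by omega) (by omega)
      · intro _ t ht1 ht2
        have := hmono 1
        exact f2 t (by omega) (by omega)
    | succ i ih =>
      intro hi
      obtain ⟨ih1, ih2⟩ := ih (by omega)
      have ih2' := ih2 hi
      have hmul : (i + 1) * Q = i * Q + Q := by ring
      refine ⟨?_, ?_⟩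
      · intro t ht1 ht2
        exact ih2' t (by omega) ht2
      · intro hi2 t ht1 ht2
        have D : Drv (L (J + i)) (L (J + i + 1)) (L (J + i + 2)) Q (Q + i * Q) τ := by
          refine ⟨?_, ?_, ?_⟩
          · intro t ht1 ht2
            exact ih1 t ht1 (by omega)
          · intro t ht1 ht2
            exact ih2' t ht1 (by omega)
          · intro t ht
            have := hmono (i + 2)
            exact hr (J + i) t (by
              rw [← add_assoc] at this
              omega)
        -- `L (J + i + 1)` is true at the times `τ - q Q`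
        have hback : ∀ q, Q + i * Q + q * Q ≤ τ → L (J + i + 1) (τ - q * Q) = true := by
          intro q
          induction q with
          | zero =>
            intro _
            rw [zero_mul, Nat.sub_zero]
            exact hw (J + i + 1) (by omega) (by omega)
          | succ q ihq =>
            intro hq
            have hq' : (q + 1) * Q = q * Q + Q := by ring
            have e1 := ih2' (τ - (q + 1) * Q) (by omega) (by omega)
            have e2 : τ - (q + 1) * Q + Q = τ - q * Q := by omega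
            rw [e2, ihq (by omega)] at e1
            exact e1.symm
        -- the first of these times
        have hdiv := Nat.div_add_mod (τ - (Q + i * Q)) Q
        have hmod := Nat.mod_lt (τ - (Q + i * Q)) hQ0
        obtain ⟨q, hq⟩ : ∃ q, q = (τ - (Q + i * Q)) / Q := ⟨_, rfl⟩
        rw [← hq, mul_comm] at hdiv
        have hle : Q + i * Q ≤ τ := by
          have : i * Q ≤ V * Q := Nat.mul_le_mul_right _ (by omega)
          have h2 : (V + 2) * Q = V * Q + 2 * Q := by ring
          omega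
        have e3 := hback q (by omega)
        refine D.after (t₁ := τ - q * Q) (by omega) e3 ?_ (by omega)
        omega
  intro j hj1 hj2
  obtain ⟨i, rfl⟩ : ∃ i, j = J + i := ⟨j - J, by omega⟩
  have hi : i < V := by omega
  have hiQ : i * Q ≤ V * Q := Nat.mul_le_mul_right _ (by omega)
  have h2 : (V + 2) * Q = V * Q + 2 * Q := by ring
  have e1 := (key i hi).1 (τ - Q) (by omega) (by omega)
  have e2 : τ - Q + Q = τ := by omega
  rw [e2, hw (J + i) hj1 hj2] at e1
  exact e1.symm

end Pool.Agent.R30B.H49
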